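import Pool.Agent.Helper61.PV.St

/-!
# Project PV, module Var: second moment method
-/

set_option autoImplicit false

namespace Pool.Agent.Helper4.PV

open Pool.Agent.Helper61.PV Finset

theorem sum_split_var (m : ℕ → ℕ → ℝ) (hm : ∀ i j, m i j = m j i) (J : ℕ) :
    ∑ i ∈ range J, ∑ j ∈ range J, m i j =
      ∑ i ∈ range J, m i i + 2 * ∑ j ∈ range J, ∑ i ∈ range j, m i j := by
  induction J with
  | zero => simp
  | succ J ih =>
    have h1 : ∑ i ∈ range J, ∑ j ∈ range (J + 1), m i j =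
        ∑ i ∈ range J, ∑ j ∈ range J, m i j + ∑ i ∈ range J, m i J := by
      rw [← sum_add_distrib]
      exact sum_congr rfl (fun i _ => sum_range_succ _ _)
    have h2 : ∑ j ∈ range J, m J j = ∑ i ∈ range J, m i J :=
      sum_congr rfl (fun i _ => hm _ _)
    rw [sum_range_succ, h1, sum_range_succ _ J, h2, ih, sum_range_succ _ J, sum_range_succ _ J]
    ring

theorem sum_refl_var (ρ : ℕ → ℝ) (j : ℕ) : ∑ i ∈ range j, ρ (j - i) = ∑ k ∈ Icc 1 j, ρ k := by
  apply sum_nbij' (fun i => j - i) (fun k => j - k)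
  · intro i hi
    have := mem_range.1 hi
    rw [mem_Icc]
    omega
  · intro k hk
    have := mem_Icc.1 hk
    rw [mem_range]
    omega
  · intro i hi
    have := mem_range.1 hi
    omega
  · intro k hk
    have := mem_Icc.1 hk
    omega
  · intro i _
    rfl

theorem sum_id_var (J : ℕ) : ∑ j ∈ range J, (j : ℝ) ≤ (J : ℝ) ^ 2 / 2 := by
  induction J with
  | zero => simp
  | succ J ih =>
    rw [sum_range_succ]
    push_cast
    nlinarith

open Classical in
/-- the theorem StVar -/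
theorem hVar : StVar := by
  intro d s X J η δ e ρ hJ hη hδ he h1 h2 h3 h4
  set P : ℝ := (#s : ℝ) with hP
  have hP0 : 0 ≤ P := by positivity
  have hJ1 : (1 : ℝ) ≤ (J : ℝ) := by exact_mod_cast hJ
  set T := s.filter (fun g => ∀ j < J, X j g = 0) with hT
  have hcard : (Nat.card {g : Fin (d + 1) → ℤ // g ∈ s ∧ ∀ j < J, X j g = 0} : ℝ) = (#T : ℝ) := by
    have h0 : Nat.card {g : Fin (d + 1) → ℤ // g ∈ s ∧ ∀ j < J, X j g = 0} = #T :=
      Nat.subtype_card T (fun g => by simp [hT])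
    exact_mod_cast h0
  rw [hcard]
  -- second moment inequality
  have hlow : (J : ℝ) ^ 2 * (#T : ℝ) ≤ ∑ g ∈ s, ((∑ j ∈ range J, X j g) - J) ^ 2 := by
    have e1 : ∑ g ∈ T, ((∑ j ∈ range J, X j g) - J) ^ 2 = (J : ℝ) ^ 2 * (#T : ℝ) := by
      have e2 : ∀ g ∈ T, ((∑ j ∈ range J, X j g) - J) ^ 2 = (J : ℝ) ^ 2 := by
        intro g hg
        have hg2 := (mem_filter.1 hg).2
        have e3 : ∑ j ∈ range J, X j g = 0 :=
          sum_eq_zero (fun j hj => hg2 j (mem_range.1 hj))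
        rw [e3]
        ring
      rw [sum_congr rfl e2, sum_const, nsmul_eq_mul]
      ring
    rw [← e1]
    exact sum_le_sum_of_subset_of_nonneg (filter_subset _ _) (fun g _ _ => sq_nonneg _)
  have hexp : ∑ g ∈ s, ((∑ j ∈ range J, X j g) - J) ^ 2 =
      ∑ g ∈ s, (∑ j ∈ range J, X j g) ^ 2 - 2 * J * ∑ g ∈ s, ∑ j ∈ range J, X j g +
        (J : ℝ) ^ 2 * P := by
    rw [mul_sum, ← sum_sub_distrib]
    have e2 : (J : ℝ) ^ 2 * P = ∑ _g ∈ s, (J : ℝ) ^ 2 := by
      rw [sum_const, nsmul_eq_mul]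
      ring
    rw [e2, ← sum_add_distrib]
    exact sum_congr rfl (fun g _ => by ring)
  have hfirst : (J : ℝ) * ((1 - δ) * P) ≤ ∑ g ∈ s, ∑ j ∈ range J, X j g := by
    rw [sum_comm]
    have e1 : (J : ℝ) * ((1 - δ) * P) = ∑ _j ∈ range J, ((1 - δ) * P) := by
      rw [sum_const, nsmul_eq_mul, card_range]
    rw [e1]
    exact sum_le_sum (fun j hj => h1 j (mem_range.1 hj))
  have hsq : ∑ g ∈ s, (∑ j ∈ range J, X j g) ^ 2 =
      ∑ i ∈ range J, ∑ j ∈ range J, ∑ g ∈ s, X i g * X j g := by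
    have e1 : ∀ g ∈ s, (∑ j ∈ range J, X j g) ^ 2 =
        ∑ i ∈ range J, ∑ j ∈ range J, X i g * X j g := by
      intro g _
      rw [sq, sum_mul_sum]
    rw [sum_congr rfl e1, sum_comm]
    exact sum_congr rfl (fun i _ => sum_comm)
  have hsplit := sum_split_var (fun i j => ∑ g ∈ s, X i g * X j g)
    (fun i j => sum_congr rfl (fun g _ => mul_comm _ _)) J
  have hdiag : ∑ i ∈ range J, ∑ g ∈ s, X i g * X i g ≤ (J : ℝ) * (η / 8 * J * P) := by
    have e1 : (J : ℝ) * (η / 8 * J * P) = ∑ _j ∈ range J, (η / 8 * J * P) := by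
      rw [sum_const, nsmul_eq_mul, card_range]
    rw [e1]
    apply sum_le_sum
    intro j hj
    have e2 := h2 j (mem_range.1 hj)
    have e3 : ∑ g ∈ s, X j g * X j g = ∑ g ∈ s, X j g ^ 2 :=
      sum_congr rfl (fun g _ => (sq _).symm)
    rw [e3]
    exact e2
  have hoff : ∑ j ∈ range J, ∑ i ∈ range j, ∑ g ∈ s, X i g * X j g ≤
      (1 + δ) * P * (e * ((J : ℝ) ^ 2 / 2)) := by
    have e1 : ∀ j ∈ range J, ∑ i ∈ range j, ∑ g ∈ s, X i g * X j g ≤
        (1 + δ) * P * (e * (j : ℝ)) := by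
      intro j hj
      have hj2 := mem_range.1 hj
      have e2 : ∑ i ∈ range j, ∑ g ∈ s, X i g * X j g ≤
          ∑ i ∈ range j, (1 + δ) * P * ρ (j - i) := by
        apply sum_le_sum
        intro i hi
        have e3 := h3 i j (mem_range.1 hi) hj2
        calc ∑ g ∈ s, X i g * X j g ≤ (1 + δ) * ρ (j - i) * P := e3
          _ = (1 + δ) * P * ρ (j - i) := by ring
      refine e2.trans ?_
      rw [← mul_sum, sum_refl_var]
      exact mul_le_mul_of_nonneg_left (h4 j) (by positivity)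
    refine (sum_le_sum e1).trans ?_
    rw [← mul_sum, ← mul_sum]
    apply mul_le_mul_of_nonneg_left _ (by positivity)
    exact mul_le_mul_of_nonneg_left (sum_id_var J) he
  have hQ2 : ∑ g ∈ s, (∑ j ∈ range J, X j g) ^ 2 ≤
      (J : ℝ) ^ 2 * (η / 8 * P) + (J : ℝ) ^ 2 * ((1 + δ) * e * P) := by
    rw [hsq]
    have e1 := hsplit
    rw [e1]
    nlinarith [hdiag, hoff]
  have hmain : (J : ℝ) ^ 2 * (#T : ℝ) ≤
      (J : ℝ) ^ 2 * ((η / 8 + (1 + δ) * e - 1 + 2 * δ) * P) := by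
    refine hlow.trans ?_
    rw [hexp]
    have e1 : 2 * (J : ℝ) * ((J : ℝ) * ((1 - δ) * P)) ≤
        2 * J * ∑ g ∈ s, ∑ j ∈ range J, X j g :=
      mul_le_mul_of_nonneg_left hfirst (by positivity)
    nlinarith [e1, hQ2]
  exact le_of_mul_le_mul_left hmain (by positivity)

end Pool.Agent.Helper4.PV
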